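import Pool.Agent.Helper98.Sim.Defs

open scoped Classical BigOperators
open Finset

namespace Pool.Agent.Helper34.SimC1b

open Pool.Agent.Helper98.Sim

noncomputable section

lemma mem_Lines {P A : Finset (Fin 3 → ℝ)} : A ∈ Lines P ↔ 2 ≤ A.card ∧
    ∃ a v : Fin 3 → ℝ, v ≠ 0 ∧ A = P.filter (fun x => On a v x) := by
  unfold Lines
  rw [Finset.mem_filter, Finset.mem_powerset]
  constructor
  · exact fun h => h.2
  · rintro ⟨h, a, v, hv, rfl⟩
    exact ⟨Finset.filter_subset _ _, h, a, v, hv, rfl⟩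

lemma exists_line {B : Finset (Fin 3 → ℝ)} {x y : Fin 3 → ℝ} (hx : x ∈ B) (hy : y ∈ B)
    (hxy : x ≠ y) : ∃ A ∈ Lines B, x ∈ A ∧ y ∈ A := by
  have h1 : x ∈ B.filter (fun z => On x (y - x) z) :=
    Finset.mem_filter.2 ⟨hx, 0, by simp⟩
  have h2 : y ∈ B.filter (fun z => On x (y - x) z) :=
    Finset.mem_filter.2 ⟨hy, 1, by simp⟩
  refine ⟨_, mem_Lines.2 ⟨?_, x, y - x, sub_ne_zero.2 hxy.symm, rfl⟩, h1, h2⟩
  exact Finset.one_lt_card.2 ⟨x, h1, y, h2, hxy⟩

lemma lines_sub {P B : Finset (Fin 3 → ℝ)} (hB : B ∈ Planes P) :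
    (Lines P).filter (fun A => A ⊆ B) = Lines B := by
  obtain ⟨hBP, -, w, δ, hw, hBe⟩ := Finset.mem_filter.1 hB
  have hBP' : B ⊆ P := Finset.mem_powerset.1 hBP
  ext A
  rw [Finset.mem_filter, mem_Lines, mem_Lines]
  constructor
  · rintro ⟨⟨hc, a, v, hv, hA⟩, hAB⟩
    refine ⟨hc, a, v, hv, ?_⟩
    apply Finset.Subset.antisymm
    · intro x hx
      rw [Finset.mem_filter]
      refine ⟨hAB hx, ?_⟩
      rw [hA] at hx
      exact (Finset.mem_filter.1 hx).2
    · intro x hx
      rw [hA]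
      exact Finset.mem_filter.2 ⟨hBP' (Finset.mem_filter.1 hx).1, (Finset.mem_filter.1 hx).2⟩
  · rintro ⟨hc, a, v, hv, hA⟩
    obtain ⟨x, hx, y, hy, hxy⟩ := Finset.one_lt_card.1 hc
    rw [hA] at hx hy
    obtain ⟨hxB, s, hs⟩ := Finset.mem_filter.1 hx
    obtain ⟨hyB, t, ht⟩ := Finset.mem_filter.1 hy
    rw [hBe] at hxB hyB
    have hxw := (Finset.mem_filter.1 hxB).2
    have hyw := (Finset.mem_filter.1 hyB).2
    have hst : s ≠ t := by
      rintro rfl
      exact hxy (hs.trans ht.symm)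
    rw [hs, dotProduct_add, dotProduct_smul, smul_eq_mul] at hxw
    rw [ht, dotProduct_add, dotProduct_smul, smul_eq_mul] at hyw
    have hwv : w ⬝ᵥ v = 0 := by
      have : (s - t) * (w ⬝ᵥ v) = 0 := by linarith
      rcases mul_eq_zero.1 this with h | h
      · exact absurd (sub_eq_zero.1 h) hst
      · exact h
    have hwa : w ⬝ᵥ a = δ := by
      rw [hwv] at hxw
      linarith
    have hall : ∀ z, On a v z → w ⬝ᵥ z = δ := by
      rintro z ⟨u, rfl⟩
      rw [dotProduct_add, dotProduct_smul, hwv, hwa]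
      simp
    refine ⟨⟨hc, a, v, hv, ?_⟩, ?_⟩
    · rw [hA]
      ext z
      rw [Finset.mem_filter, Finset.mem_filter]
      constructor
      · exact fun h => ⟨hBP' h.1, h.2⟩
      · intro h
        refine ⟨?_, h.2⟩
        rw [hBe]
        exact Finset.mem_filter.2 ⟨h.1, hall z h.2⟩
    · rw [hA]
      exact Finset.filter_subset _ _

lemma sq_layer (K m : ℕ) : ∀ n : ℕ, K ≤ n → n ≤ m →
    (n : ℝ) ^ 2 ≤ (K : ℝ) ^ 2 + ∑ s ∈ Finset.Ioc K m, (if s ≤ n then 2 * (s : ℝ) else 0) := by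
  intro n hKn
  induction n, hKn using Nat.le_induction with
  | base =>
    intro _
    have : 0 ≤ ∑ s ∈ Finset.Ioc K m, (if s ≤ K then 2 * (s : ℝ) else 0) :=
      Finset.sum_nonneg (fun s _ => by split_ifs <;> positivity)
    linarith
  | succ n hn ih =>
    intro hm
    have h1 := ih (by omega)
    have h2 : ∑ s ∈ Finset.Ioc K m, (if s ≤ n + 1 then 2 * (s : ℝ) else 0) =
        ∑ s ∈ Finset.Ioc K m, (if s ≤ n then 2 * (s : ℝ) else 0) + 2 * ((n : ℝ) + 1) := by
      have h3 : ∀ s ∈ Finset.Ioc K m, (if s ≤ n + 1 then 2 * (s : ℝ) else 0) =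
          (if s ≤ n then 2 * (s : ℝ) else 0) + (if s = n + 1 then 2 * ((n : ℝ) + 1) else 0) := by
        intro s _
        by_cases a : s ≤ n
        · rw [if_pos a, if_pos (by omega), if_neg (by omega), add_zero]
        · by_cases b : s = n + 1
          · rw [if_neg a, if_pos b, if_pos (by omega), b]; push_cast; ring
          · rw [if_neg a, if_neg b, if_neg (by omega), add_zero]
      rw [Finset.sum_congr rfl h3, Finset.sum_add_distrib, Finset.sum_ite_eq',
        if_pos (Finset.mem_Ioc.2 ⟨by omega, hm⟩)]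
    rw [h2]
    push_cast
    nlinarith

lemma sum_inv_sq (K : ℕ) (hK : 1 ≤ K) : ∀ m : ℕ, K ≤ m →
    ∑ s ∈ Finset.Ioc K m, 1 / (s : ℝ) ^ 2 ≤ 1 / (K : ℝ) - 1 / (m : ℝ) := by
  intro m hm
  induction m, hm using Nat.le_induction with
  | base => simp
  | succ m hm ih =>
    rw [← Finset.insert_Ioc_right_eq_Ioc_add_one (by omega), Finset.sum_insert (by simp)]
    have hm0 : (0 : ℝ) < m := by exact_mod_cast (by omega : 0 < m)
    have : 1 / ((m + 1 : ℕ) : ℝ) ^ 2 ≤ 1 / (m : ℝ) - 1 / ((m + 1 : ℕ) : ℝ) := by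
      push_cast
      rw [div_sub_div _ _ hm0.ne' (by positivity), div_le_div_iff₀ (by positivity) (by positivity)]
      nlinarith
    linarith

theorem st_C1b : RichLines_stmt → Beck_stmt := by
  rintro ⟨C, hC, hR⟩
  obtain ⟨K, hK2, hKC⟩ : ∃ K : ℕ, 2 ≤ K ∧ 24 * C ≤ K := by
    refine ⟨⌈24 * C⌉₊ + 2, by omega, ?_⟩
    push_cast
    linarith [Nat.le_ceil (24 * C)]
  have hK0 : (0 : ℝ) < K := by positivity
  have hK2' : (2 : ℝ) ≤ K := by exact_mod_cast hK2
  have hg1 : min (1 / 4 : ℝ) (1 / (24 * C)) ≤ 1 / 4 := min_le_left _ _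
  have hg2 : 24 * C * min (1 / 4 : ℝ) (1 / (24 * C)) ≤ 1 := by
    calc 24 * C * min (1 / 4 : ℝ) (1 / (24 * C)) ≤ 24 * C * (1 / (24 * C)) :=
          mul_le_mul_of_nonneg_left (min_le_right _ _) (by positivity)
      _ = 1 := by field_simp
  have hg0 : 0 < min (1 / 4 : ℝ) (1 / (24 * C)) := lt_min (by norm_num) (by positivity)
  generalize min (1 / 4 : ℝ) (1 / (24 * C)) = γ at hg0 hg1 hg2
  refine ⟨γ, 1 / (4 * K), hg0, by linarith, by positivity, ?_, ?_⟩
  · rw [div_lt_one (by positivity)]; linarith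
  intro P B hB hdeg
  have hLB := lines_sub hB
  have hLB' : ∀ A ∈ Lines B, (A.card : ℝ) ≤ γ * B.card := by
    intro A hA
    rw [← hLB, Finset.mem_filter] at hA
    exact hdeg A hA.1 hA.2
  set t : ℝ := (B.card : ℝ) with ht
  have ht0 : 0 ≤ t := by positivity
  -- B has two points
  have hne : 4 ≤ t := by
    have hnc : ¬ Coll B := (Finset.mem_filter.1 hB).2.1
    have h1 : 1 < B.card := by
      by_contra hc
      apply hnc
      have hc' : B.card ≤ 1 := by omega
      rcases Nat.lt_or_ge 0 B.card with h0 | h0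
      · obtain ⟨x, hx⟩ := Finset.card_eq_one.1 (by omega : B.card = 1)
        refine ⟨x, fun _ => 1, fun h => by simpa using congrFun h 0, ?_⟩
        intro y hy
        rw [hx, Finset.mem_singleton] at hy
        exact ⟨0, by rw [hy]; simp⟩
      · have : B = ∅ := Finset.card_eq_zero.1 (by omega)
        refine ⟨0, fun _ => 1, fun h => by simpa using congrFun h 0, ?_⟩
        intro y hy
        rw [this] at hy
        simp at hy
    obtain ⟨x, hx, y, hy, hxy⟩ := Finset.one_lt_card.1 h1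
    obtain ⟨A, hA, -, -⟩ := exists_line hx hy hxy
    have h2 := hLB' A hA
    have h3 : (2 : ℝ) ≤ A.card := by exact_mod_cast (mem_Lines.1 hA).1
    nlinarith
  set Rich := (Lines B).filter (fun A => K ≤ A.card) with hRich
  -- the rich lines carry few pairs
  have hrich : ∑ A ∈ Rich, (A.card : ℝ) ^ 2 ≤ t ^ 2 / 4 := by
    rcases Finset.eq_empty_or_nonempty Rich with he | ⟨A0, hA0⟩
    · rw [he]; simp; positivity
    set m := ⌊γ * t⌋₊ with hm
    have hmt : (m : ℝ) ≤ γ * t := Nat.floor_le (by positivity)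
    have hAm : ∀ A ∈ Rich, A.card ≤ m := by
      intro A hA
      exact Nat.le_floor (hLB' A (Finset.mem_filter.1 hA).1)
    have hKm : K ≤ m := (Finset.mem_filter.1 hA0).2.trans (hAm A0 hA0)
    have hKt : (K : ℝ) ≤ γ * t := le_trans (by exact_mod_cast hKm) hmt
    have e1 : ∑ A ∈ Rich, (A.card : ℝ) ^ 2 ≤ ∑ A ∈ Rich, ((K : ℝ) ^ 2 +
        ∑ s ∈ Finset.Ioc K m, (if s ≤ A.card then 2 * (s : ℝ) else 0)) := by
      apply Finset.sum_le_sum
      intro A hA
      exact sq_layer K m A.card (Finset.mem_filter.1 hA).2 (hAm A hA)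
    rw [Finset.sum_add_distrib, Finset.sum_const, nsmul_eq_mul, Finset.sum_comm] at e1
    have e2 : ∀ s ∈ Finset.Ioc K m, ∑ A ∈ Rich, (if s ≤ A.card then 2 * (s : ℝ) else 0) ≤
        2 * C * t ^ 2 * (1 / (s : ℝ) ^ 2) + 2 * C * t := by
      intro s hs
      have hsK := (Finset.mem_Ioc.1 hs).1
      have hs0 : (0 : ℝ) < s := by exact_mod_cast (by omega : 0 < s)
      rw [← Finset.sum_filter, Finset.sum_const, nsmul_eq_mul]
      have h1 : ((Rich.filter (fun A => s ≤ A.card)).card : ℝ) ≤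
          (((Lines B).filter (fun A => s ≤ A.card)).card : ℝ) := by
        exact_mod_cast Finset.card_le_card (fun A hA => by
          simp only [hRich, Finset.mem_filter] at hA ⊢
          exact ⟨hA.1.1, hA.2⟩)
      have h2 := hR B s (by omega)
      calc ((Rich.filter (fun A => s ≤ A.card)).card : ℝ) * (2 * (s : ℝ)) ≤
          (C * (t ^ 2 / (s : ℝ) ^ 3 + t / s)) * (2 * (s : ℝ)) :=
            mul_le_mul_of_nonneg_right (h1.trans h2) (by positivity)
        _ = 2 * C * t ^ 2 * (1 / (s : ℝ) ^ 2) + 2 * C * t := by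
            field_simp
    have e3 : ∑ s ∈ Finset.Ioc K m, ∑ A ∈ Rich, (if s ≤ A.card then 2 * (s : ℝ) else 0) ≤
        2 * C * t ^ 2 * (1 / K) + 2 * C * t * (γ * t) := by
      refine (Finset.sum_le_sum e2).trans ?_
      rw [Finset.sum_add_distrib, ← Finset.mul_sum, Finset.sum_const, nsmul_eq_mul,
        Nat.card_Ioc]
      have h1 := sum_inv_sq K (by omega) m hKm
      have h2 : (0 : ℝ) ≤ 1 / m := by positivity
      have h3 : ((m - K : ℕ) : ℝ) ≤ γ * t := le_trans (by exact_mod_cast Nat.sub_le m K) hmt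
      have h4 : 2 * C * t ^ 2 * ∑ s ∈ Finset.Ioc K m, 1 / (s : ℝ) ^ 2 ≤
          2 * C * t ^ 2 * (1 / K) :=
        mul_le_mul_of_nonneg_left (by linarith) (by positivity)
      have h5 : ((m - K : ℕ) : ℝ) * (2 * C * t) ≤ (γ * t) * (2 * C * t) :=
        mul_le_mul_of_nonneg_right h3 (by positivity)
      linarith
    have e4 : (Rich.card : ℝ) * (K : ℝ) ^ 2 ≤ C * t ^ 2 * (1 / K) + C * t * (γ * t) := by
      have h2 := hR B K hK2
      calc (Rich.card : ℝ) * (K : ℝ) ^ 2 ≤ (C * (t ^ 2 / (K : ℝ) ^ 3 + t / K)) * (K : ℝ) ^ 2 :=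
            mul_le_mul_of_nonneg_right h2 (by positivity)
        _ = C * t ^ 2 * (1 / K) + C * t * K := by field_simp
        _ ≤ C * t ^ 2 * (1 / K) + C * t * (γ * t) := by
            have := mul_le_mul_of_nonneg_left hKt (by positivity : 0 ≤ C * t)
            linarith
    have e5 : 24 * (C * t ^ 2 * (1 / K)) ≤ t ^ 2 := by
      have : 24 * C * (1 / K) ≤ 1 := by
        rw [mul_one_div, div_le_one hK0]; exact hKC
      nlinarith [sq_nonneg t]
    have e6 : 24 * (C * t * (γ * t)) ≤ t ^ 2 := by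
      nlinarith [sq_nonneg t]
    linarith
  set RP := B.offDiag.filter (fun z => ∃ A ∈ Rich, z.1 ∈ A ∧ z.2 ∈ A) with hRP
  set PP := B.offDiag.filter (fun z => ¬ ∃ A ∈ Rich, z.1 ∈ A ∧ z.2 ∈ A) with hPP
  have hRPc : (RP.card : ℝ) ≤ t ^ 2 / 4 := by
    refine le_trans ?_ hrich
    have h1 : RP ⊆ Rich.biUnion (fun A => A ×ˢ A) := by
      intro z hz
      obtain ⟨-, A, hA, h1, h2⟩ := Finset.mem_filter.1 hz
      exact Finset.mem_biUnion.2 ⟨A, hA, Finset.mem_product.2 ⟨h1, h2⟩⟩
    have h2 : RP.card ≤ ∑ A ∈ Rich, A.card ^ 2 := by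
      refine (Finset.card_le_card h1).trans (Finset.card_biUnion_le.trans ?_)
      apply le_of_eq
      apply Finset.sum_congr rfl
      intro A _
      rw [Finset.card_product]; ring
    exact_mod_cast h2
  have hsum : (RP.card : ℝ) + PP.card = t ^ 2 - t := by
    have h1 : RP.card + PP.card = B.offDiag.card := Finset.card_filter_add_card_filter_not _
    have h2 : B.offDiag.card + B.card = B.card * B.card := by
      rw [Finset.offDiag_card]
      exact Nat.sub_add_cancel (Nat.le_mul_self _)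
    have h3 : (B.offDiag.card : ℝ) + t = t * t := by
      rw [ht]; exact_mod_cast h2
    have h4 : (RP.card : ℝ) + PP.card = B.offDiag.card := by exact_mod_cast h1
    rw [h4]; nlinarith
  have hPPc : t ^ 2 / 2 ≤ (PP.card : ℝ) := by nlinarith
  set G := B.filter (fun a => 1 / (4 * (K : ℝ)) * t ≤
    (((Lines P).filter (fun A => a ∈ A ∧ A ⊆ B)).card : ℝ)) with hG
  have hfib : PP.card = ∑ a ∈ B, (PP.filter (fun z => z.1 = a)).card := by
    apply Finset.card_eq_sum_card_fiberwise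
    intro z hz
    exact (Finset.mem_offDiag.1 (Finset.mem_filter.1 hz).1).1
  have hinj : ∀ a, Set.InjOn (fun z : (Fin 3 → ℝ) × (Fin 3 → ℝ) => z.2)
      (PP.filter (fun z => z.1 = a)) := by
    intro a z hz z' hz' h
    have h1 := (Finset.mem_filter.1 hz).2
    have h2 := (Finset.mem_filter.1 hz').2
    exact Prod.ext (h1.trans h2.symm) h
  have g1 : ∀ a ∈ B, ((PP.filter (fun z => z.1 = a)).card : ℝ) ≤ t := by
    intro a _
    rw [ht, ← Finset.card_image_of_injOn (hinj a)]
    exact_mod_cast Finset.card_le_card (fun b hb => by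
      obtain ⟨z, hz, rfl⟩ := Finset.mem_image.1 hb
      exact (Finset.mem_offDiag.1 (Finset.mem_filter.1 (Finset.mem_filter.1 hz).1).1).2.1)
  have g2 : ∀ a ∈ B, ((PP.filter (fun z => z.1 = a)).card : ℝ) ≤
      K * (((Lines P).filter (fun A => a ∈ A ∧ A ⊆ B)).card : ℝ) := by
    intro a ha
    have h1 : (PP.filter (fun z => z.1 = a)).image (fun z => z.2) ⊆
        (((Lines P).filter (fun A => a ∈ A ∧ A ⊆ B)).filter (fun A => A.card ≤ K)).biUnion
          (fun A => A) := by
      intro b hb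
      obtain ⟨z, hz, rfl⟩ := Finset.mem_image.1 hb
      have hz1 := Finset.mem_filter.1 hz
      have hz2 := Finset.mem_filter.1 hz1.1
      have hz3 := Finset.mem_offDiag.1 hz2.1
      obtain ⟨A, hA, hA1, hA2⟩ := exists_line hz3.1 hz3.2.1 hz3.2.2
      have hA' := hA
      rw [← hLB, Finset.mem_filter] at hA'
      refine Finset.mem_biUnion.2 ⟨A, ?_, hA2⟩
      rw [Finset.mem_filter, Finset.mem_filter]
      refine ⟨⟨hA'.1, by rw [← hz1.2]; exact hA1, hA'.2⟩, ?_⟩
      by_contra hc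
      exact hz2.2 ⟨A, Finset.mem_filter.2 ⟨hA, by omega⟩, hA1, hA2⟩
    have h2 : (PP.filter (fun z => z.1 = a)).card ≤
        ((Lines P).filter (fun A => a ∈ A ∧ A ⊆ B)).card * K := by
      rw [← Finset.card_image_of_injOn (hinj a)]
      refine (Finset.card_le_card h1).trans ((Finset.card_biUnion_le_card_mul _ _ K ?_).trans ?_)
      · intro A hA
        exact (Finset.mem_filter.1 hA).2
      · exact Nat.mul_le_mul_right _ (Finset.card_le_card (Finset.filter_subset _ _))
    have h3 : ((PP.filter (fun z => z.1 = a)).card : ℝ) ≤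
        (((Lines P).filter (fun A => a ∈ A ∧ A ⊆ B)).card : ℝ) * K := by exact_mod_cast h2
    linarith
  have hfib' : (PP.card : ℝ) = ∑ a ∈ B, ((PP.filter (fun z => z.1 = a)).card : ℝ) := by
    exact_mod_cast hfib
  have hle : (PP.card : ℝ) ≤ G.card * t + t * (t / 4) := by
    rw [hfib', ← Finset.sum_filter_add_sum_filter_not B (fun a => 1 / (4 * (K : ℝ)) * t ≤
      (((Lines P).filter (fun A => a ∈ A ∧ A ⊆ B)).card : ℝ))]
    apply add_le_add
    · calc _ ≤ ∑ a ∈ G, t := Finset.sum_le_sum (fun a ha => g1 a (Finset.mem_filter.1 ha).1)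
        _ = G.card * t := by rw [Finset.sum_const, nsmul_eq_mul]
    · calc _ ≤ ∑ a ∈ B.filter (fun a => ¬ 1 / (4 * (K : ℝ)) * t ≤
            (((Lines P).filter (fun A => a ∈ A ∧ A ⊆ B)).card : ℝ)), t / 4 := by
            apply Finset.sum_le_sum
            intro a ha
            have h1 := Finset.mem_filter.1 ha
            have h2 := g2 a h1.1
            have h3 := not_le.1 h1.2
            have h4 : (K : ℝ) * (1 / (4 * (K : ℝ)) * t) = t / 4 := by field_simp
            have h5 := mul_le_mul_of_nonneg_left h3.le hK0.le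
            linarith
        _ ≤ t * (t / 4) := by
            rw [Finset.sum_const, nsmul_eq_mul]
            apply mul_le_mul_of_nonneg_right _ (by positivity)
            rw [ht]
            exact_mod_cast Finset.card_le_card (Finset.filter_subset _ _)
  have hGt : t / 4 ≤ (G.card : ℝ) := by
    have : t * (t / 4) ≤ t * (G.card : ℝ) := by nlinarith
    exact le_of_mul_le_mul_left this (by linarith)
  refine le_trans ?_ hGt
  have : 1 / (4 * (K : ℝ)) ≤ 1 / 4 := by
    apply one_div_le_one_div_of_le (by norm_num)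
    linarith
  calc 1 / (4 * (K : ℝ)) * t ≤ 1 / 4 * t := mul_le_mul_of_nonneg_right this ht0
    _ = t / 4 := by ring

end

end Pool.Agent.Helper34.SimC1b
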