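import Pool.Agent.Helper98.Sim.Defs

open scoped Classical BigOperators
open Finset

namespace Pool.Agent.Helper34.Sim

open Pool.Agent.Helper98.Sim

noncomputable section

lemma nsq3 (x : Fin 3 → ℝ) : nsq x = x 0 ^ 2 + x 1 ^ 2 + x 2 ^ 2 := by
  simp [nsq, dotProduct, Fin.sum_univ_three]; ring

lemma dot3 (x y : Fin 3 → ℝ) : x ⬝ᵥ y = x 0 * y 0 + x 1 * y 1 + x 2 * y 2 := by
  simp [dotProduct, Fin.sum_univ_three]

lemma eq_zero_of_nsq {x : Fin 3 → ℝ} (h : nsq x ≤ 0) : x = 0 := by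
  rw [nsq3] at h
  funext i
  have h0 : x 0 = 0 := by nlinarith [sq_nonneg (x 0), sq_nonneg (x 1), sq_nonneg (x 2)]
  have h1 : x 1 = 0 := by nlinarith [sq_nonneg (x 0), sq_nonneg (x 1), sq_nonneg (x 2)]
  have h2 : x 2 = 0 := by nlinarith [sq_nonneg (x 0), sq_nonneg (x 1), sq_nonneg (x 2)]
  fin_cases i
  · exact h0
  · exact h1
  · exact h2

lemma nsq_pos {x : Fin 3 → ℝ} (h : x ≠ 0) : 0 < nsq x := by
  by_contra hc
  exact h (eq_zero_of_nsq (not_lt.1 hc))

lemma good_L {L M : ℝ} (h : Good L M) : 0 < L := by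
  unfold Good at h
  nlinarith [sq_nonneg (1 + L - M)]

lemma tri_of {L M : ℝ} {p q r y : Fin 3 → ℝ} (h : Tri L M p q r)
    (h1 : nsq (y - p) = nsq (r - p))
    (h2 : (y - p) ⬝ᵥ (q - p) = (r - p) ⬝ᵥ (q - p)) : Tri L M p q y := by
  obtain ⟨hpq, ha, hb⟩ := h
  refine ⟨hpq, by rw [h1, ha], ?_⟩
  rw [← hb]
  simp only [nsq3, dot3, Pi.sub_apply] at *
  nlinarith

/-- the quadratic form `|v|^2` as a polynomial -/
def nv : MvPolynomial (Fin 3) ℝ :=
  MvPolynomial.X 0 ^ 2 + MvPolynomial.X 1 ^ 2 + MvPolynomial.X 2 ^ 2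

lemma eval_nv (v : Fin 3 → ℝ) : MvPolynomial.eval v nv = nsq v := by
  simp [nv, nsq3]

lemma deg_X_pow (i : Fin 3) : (MvPolynomial.X i ^ 2 : MvPolynomial (Fin 3) ℝ).totalDegree ≤ 2 := by
  refine (MvPolynomial.totalDegree_pow _ _).trans ?_
  simp [MvPolynomial.totalDegree_X]

lemma deg_nv : nv.totalDegree ≤ 2 := by
  unfold nv
  refine (MvPolynomial.totalDegree_add _ _).trans (max_le ?_ (deg_X_pow 2))
  exact (MvPolynomial.totalDegree_add _ _).trans (max_le (deg_X_pow 0) (deg_X_pow 1))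

/-- linear form -/
def lin (a : Fin 3 → ℝ) : MvPolynomial (Fin 3) ℝ :=
  MvPolynomial.C (a 0) * MvPolynomial.X 0 + MvPolynomial.C (a 1) * MvPolynomial.X 1 +
    MvPolynomial.C (a 2) * MvPolynomial.X 2

lemma eval_lin (a v : Fin 3 → ℝ) : MvPolynomial.eval v (lin a) = a ⬝ᵥ v := by
  simp [lin, dot3]

lemma deg_CX (c : ℝ) (i : Fin 3) :
    (MvPolynomial.C c * MvPolynomial.X i : MvPolynomial (Fin 3) ℝ).totalDegree ≤ 1 := by
  refine (MvPolynomial.totalDegree_mul _ _).trans ?_
  simp [MvPolynomial.totalDegree_X]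

lemma deg_lin (a : Fin 3 → ℝ) : (lin a).totalDegree ≤ 1 := by
  unfold lin
  refine (MvPolynomial.totalDegree_add _ _).trans (max_le ?_ (deg_CX _ 2))
  exact (MvPolynomial.totalDegree_add _ _).trans (max_le (deg_CX _ 0) (deg_CX _ 1))

lemma deg_C_mul (c : ℝ) (g : MvPolynomial (Fin 3) ℝ) (n : ℕ) (h : g.totalDegree ≤ n) :
    (MvPolynomial.C c * g).totalDegree ≤ n := by
  refine (MvPolynomial.totalDegree_mul _ _).trans ?_
  simpa using h

/-- lexicographic sign -/
def pos (v : Fin 3 → ℝ) : Prop := 0 < v 0 ∨ (v 0 = 0 ∧ (0 < v 1 ∨ (v 1 = 0 ∧ 0 < v 2)))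

lemma pos_neg {v w : Fin 3 → ℝ} (hv : pos v) (hw : pos w) (h : v = -w) : False := by
  subst h
  unfold pos at *
  simp only [Pi.neg_apply] at hv
  rcases hw with hw | ⟨h0, hw | ⟨h1, hw⟩⟩ <;> rcases hv with hv | ⟨k0, hv | ⟨k1, hv⟩⟩ <;> linarith

lemma npos_neg {v w : Fin 3 → ℝ} (hv0 : v ≠ 0) (hv : ¬ pos v) (hw : ¬ pos w) (h : w = -v) :
    False := by
  subst h
  unfold pos at *
  simp only [Pi.neg_apply] at hw
  push Not at hv hw
  obtain ⟨a1, a2⟩ := hv
  obtain ⟨b1, b2⟩ := hw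
  have h0 : v 0 = 0 := by linarith
  obtain ⟨a3, a4⟩ := a2 h0
  obtain ⟨b3, b4⟩ := b2 (by linarith)
  have h1 : v 1 = 0 := by linarith
  have h2 : v 2 = 0 := by linarith [a4 h1, b4 (by linarith)]
  apply hv0
  funext i
  fin_cases i
  · exact h0
  · exact h1
  · exact h2

/-- two vectors of the same length which are neither equal nor opposite -/
lemma sep {v w : Fin 3 → ℝ} (hv : v ≠ 0) (hN : nsq v = nsq w) (h1 : w ≠ v) (h2 : w ≠ -v) :
    ∃ x : Fin 3 → ℝ, v ⬝ᵥ x = 0 ∧ w ⬝ᵥ x ≠ 0 := by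
  have hp := nsq_pos hv
  refine ⟨w - ((w ⬝ᵥ v) / nsq v) • v, ?_, ?_⟩
  · rw [dotProduct_sub, dotProduct_smul, smul_eq_mul]
    have : v ⬝ᵥ v = nsq v := rfl
    rw [this, div_mul_cancel₀ _ hp.ne', dotProduct_comm, sub_self]
  · rw [dotProduct_sub, dotProduct_smul, smul_eq_mul]
    intro h0
    have hw : w ⬝ᵥ w = nsq v := by rw [hN]; rfl
    rw [hw] at h0
    have h3 : nsq v * nsq v = (w ⬝ᵥ v) * (w ⬝ᵥ v) := by
      field_simp at h0
      nlinarith
    have h4 : (nsq v - w ⬝ᵥ v) * (nsq v + w ⬝ᵥ v) = 0 := by nlinarith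
    have e1 : nsq (w - v) = 2 * (nsq v - w ⬝ᵥ v) := by
      have := hN
      simp only [nsq3, dot3, Pi.sub_apply] at *
      nlinarith
    have e2 : nsq (w + v) = 2 * (nsq v + w ⬝ᵥ v) := by
      have := hN
      simp only [nsq3, dot3, Pi.add_apply] at *
      nlinarith
    rcases mul_eq_zero.1 h4 with h5 | h5
    · apply h1
      have := eq_zero_of_nsq (x := w - v) (by rw [e1, h5]; simp)
      exact sub_eq_zero.1 this
    · apply h2
      have := eq_zero_of_nsq (x := w + v) (by rw [e2, h5]; simp)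
      exact eq_neg_of_add_eq_zero_left this

/-- (b1): at most `4 D` second points -/
lemma b1 (hS : SubstM_stmt) (hH : HypCount_stmt 3) {L M : ℝ} (hG : Good L M)
    (f : MvPolynomial (Fin 3) ℝ) (p r x0 : Fin 3 → ℝ) (hx0 : nsq (x0 - p) = nsq (r - p))
    (hfx0 : MvPolynomial.eval x0 f ≠ 0) (Q : Finset (Fin 3 → ℝ))
    (hQ : ∀ q ∈ Q, Tri L M p q r ∧ ∀ x, Tri L M p q x → MvPolynomial.eval x f = 0) :
    Q.card ≤ 4 * f.totalDegree := by
  by_cases hQe : Q = ∅
  · subst hQe; simp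
  obtain ⟨q0, hq0⟩ := Finset.nonempty_iff_ne_empty.2 hQe
  have hfr : MvPolynomial.eval r f = 0 := (hQ q0 hq0).2 r (hQ q0 hq0).1
  have hx0r : x0 - r ≠ 0 := by
    intro h
    rw [sub_eq_zero.1 h] at hfx0
    exact hfx0 hfr
  have hD : 0 < f.totalDegree := by
    rcases Nat.eq_zero_or_pos f.totalDegree with h | h
    · exfalso
      rw [MvPolynomial.totalDegree_eq_zero_iff_eq_C] at h
      rw [h] at hfx0 hfr
      simp only [MvPolynomial.eval_C] at hfx0 hfr
      exact hfx0 hfr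
    · exact h
  have hu : ∀ k, (MvPolynomial.C (r k) * nv + MvPolynomial.C 2 * (lin (p - r) * MvPolynomial.X k) :
      MvPolynomial (Fin 3) ℝ).totalDegree ≤ 2 := by
    intro k
    refine (MvPolynomial.totalDegree_add _ _).trans (max_le ?_ ?_)
    · exact deg_C_mul _ _ _ deg_nv
    · refine deg_C_mul _ _ _ ((MvPolynomial.totalDegree_mul _ _).trans ?_)
      have := deg_lin (p - r)
      rw [MvPolynomial.totalDegree_X]
      omega
  obtain ⟨F, hFdeg, hF1, hF2⟩ := hS 3 3 f.totalDegree 2 f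
    (fun k => MvPolynomial.C (r k) * nv + MvPolynomial.C 2 * (lin (p - r) * MvPolynomial.X k)) nv
    le_rfl hu deg_nv
  have hF1' : ∀ t : Fin 3 → ℝ, t ≠ 0 → MvPolynomial.eval t F = (nsq t) ^ f.totalDegree *
      MvPolynomial.eval (r + (2 * ((p - r) ⬝ᵥ t) / nsq t) • t) f := by
    intro t ht
    have hp := nsq_pos ht
    rw [hF1 t (by rw [eval_nv]; exact hp.ne'), eval_nv]
    congr 3
    funext k
    simp only [map_add, map_mul, MvPolynomial.eval_C, eval_nv, eval_lin, MvPolynomial.eval_X,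
      Pi.add_apply, Pi.smul_apply, smul_eq_mul]
    field_simp
  have hF0 : F ≠ 0 := by
    intro h
    have h1 := hF1' (x0 - r) hx0r
    rw [h] at h1
    simp only [map_zero] at h1
    have hp := nsq_pos hx0r
    have h2 : 2 * ((p - r) ⬝ᵥ (x0 - r)) = nsq (x0 - r) := by
      simp only [nsq3, dot3, Pi.sub_apply] at *
      nlinarith
    have h3 : r + (2 * ((p - r) ⬝ᵥ (x0 - r)) / nsq (x0 - r)) • (x0 - r) = x0 := by
      rw [h2, div_self hp.ne', one_smul]
      abel
    rw [h3] at h1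
    rcases mul_eq_zero.1 h1.symm with h4 | h4
    · exact (pow_pos hp _).ne' h4
    · exact hfx0 h4
  have hvan : ∀ q ∈ Q, ∀ x, (q - p) ⬝ᵥ x = 0 → MvPolynomial.eval x F = 0 := by
    intro q hq x hx
    by_cases hx0 : x = 0
    · subst hx0
      refine hF2 hD 0 ?_ ?_
      · rw [eval_nv]; simp [nsq]
      · intro k
        rw [map_add, map_mul, map_mul, map_mul, eval_nv, eval_lin]
        simp [nsq]
    · rw [hF1' x hx0]
      have hp := nsq_pos hx0
      obtain ⟨hq1, hq2⟩ := hQ q hq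
      rw [hq2 _ (tri_of hq1 ?_ ?_), mul_zero]
      · set c := 2 * ((p - r) ⬝ᵥ x) / nsq x with hc
        have hc' : c * nsq x = 2 * ((p - r) ⬝ᵥ x) := by
          rw [hc]; field_simp
        have : nsq (r + c • x - p) = nsq (r - p) + c * (c * nsq x - 2 * ((p - r) ⬝ᵥ x)) := by
          simp only [nsq3, dot3, Pi.sub_apply, Pi.add_apply, Pi.smul_apply, smul_eq_mul]
          ring
        rw [this, hc']; ring
      · set c := 2 * ((p - r) ⬝ᵥ x) / nsq x with hc
        have : (r + c • x - p) ⬝ᵥ (q - p) = (r - p) ⬝ᵥ (q - p) + c * ((q - p) ⬝ᵥ x) := by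
          simp only [nsq3, dot3, Pi.sub_apply, Pi.add_apply, Pi.smul_apply, smul_eq_mul]
          ring
        rw [this, hx]; ring
  have hne : ∀ q ∈ Q, q - p ≠ 0 := by
    intro q hq h
    exact (hQ q hq).1.1 (sub_eq_zero.1 h).symm
  have hlen : ∀ q ∈ Q, ∀ q' ∈ Q, nsq (q - p) = nsq (q' - p) := by
    intro q hq q' hq'
    have h1 := (hQ q hq).1.2.1
    have h2 := (hQ q' hq').1.2.1
    rw [h1] at h2
    exact mul_left_cancel₀ (good_L hG).ne' h2
  have key : ∀ Λ : Finset (Fin 3 → ℝ), Λ ⊆ Q → (∀ q ∈ Λ, ∀ q' ∈ Λ, q' - p ≠ -(q - p)) →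
      Λ.card ≤ 2 * f.totalDegree := by
    intro Λ hΛ hanti
    refine (hH F (Fin 3 → ℝ) Λ (fun q => q - p) (fun _ => 0) hF0 (fun q hq => hne q (hΛ hq))
      (fun q hq x hx => hvan q (hΛ hq) x hx) ?_).trans hFdeg
    intro q hq q' hq' hqq'
    exact sep (hne q (hΛ hq)) (hlen q (hΛ hq) q' (hΛ hq'))
      (fun h => hqq' (sub_left_injective h).symm) (hanti q hq q' hq')
  have hsplit := Finset.card_filter_add_card_filter_not (s := Q) (fun q => pos (q - p))
  have k1 := key (Q.filter (fun q => pos (q - p))) (Finset.filter_subset _ _) (by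
    intro q hq q' hq' h
    exact pos_neg (Finset.mem_filter.1 hq').2 (Finset.mem_filter.1 hq).2 h)
  have k2 := key (Q.filter (fun q => ¬ pos (q - p))) (Finset.filter_subset _ _) (by
    intro q hq q' hq' h
    exact npos_neg (hne q (Finset.mem_filter.1 hq).1) (Finset.mem_filter.1 hq).2
      (Finset.mem_filter.1 hq').2 h)
  omega

/-- (b2): at most `2 D` centres -/
lemma b2 (hS : SubstM_stmt) (hH : HypCount_stmt 3)
    (f : MvPolynomial (Fin 3) ℝ) (hf : f ≠ 0) (r : Fin 3 → ℝ) (hfr : MvPolynomial.eval r f = 0)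
    (Q : Finset (Fin 3 → ℝ))
    (hQ : ∀ p ∈ Q, p ≠ r ∧ ∀ x, nsq (x - p) = nsq (r - p) → MvPolynomial.eval x f = 0) :
    Q.card ≤ 2 * f.totalDegree := by
  obtain ⟨x0, hx0⟩ : ∃ x, MvPolynomial.eval x f ≠ 0 := by
    by_contra hc
    push Not at hc
    exact hf (MvPolynomial.funext (fun x => by rw [hc x, map_zero]))
  have hx0r : x0 - r ≠ 0 := by
    intro h
    rw [sub_eq_zero.1 h] at hx0
    exact hx0 hfr
  have hu : ∀ k, (MvPolynomial.C (r k) * nv + MvPolynomial.X k :
      MvPolynomial (Fin 3) ℝ).totalDegree ≤ 2 := by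
    intro k
    refine (MvPolynomial.totalDegree_add _ _).trans (max_le ?_ ?_)
    · exact deg_C_mul _ _ _ deg_nv
    · rw [MvPolynomial.totalDegree_X]; norm_num
  obtain ⟨F, hFdeg, hF1, hF2⟩ := hS 3 3 f.totalDegree 2 f
    (fun k => MvPolynomial.C (r k) * nv + MvPolynomial.X k) nv
    le_rfl hu deg_nv
  have hF1' : ∀ t : Fin 3 → ℝ, t ≠ 0 → MvPolynomial.eval t F = (nsq t) ^ f.totalDegree *
      MvPolynomial.eval (r + (1 / nsq t) • t) f := by
    intro t ht
    have hp := nsq_pos ht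
    rw [hF1 t (by rw [eval_nv]; exact hp.ne'), eval_nv]
    congr 3
    funext k
    simp only [map_add, map_mul, MvPolynomial.eval_C, eval_nv, MvPolynomial.eval_X,
      Pi.add_apply, Pi.smul_apply, smul_eq_mul]
    field_simp
  have hp0 := nsq_pos hx0r
  have hF0 : F ≠ 0 := by
    intro h
    have hv : (1 / nsq (x0 - r)) • (x0 - r) ≠ 0 := smul_ne_zero (by positivity) hx0r
    have h1 := hF1' _ hv
    rw [h] at h1
    simp only [map_zero] at h1
    have hp := nsq_pos hv
    have h2 : nsq ((1 / nsq (x0 - r)) • (x0 - r)) = 1 / nsq (x0 - r) := by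
      have : nsq ((1 / nsq (x0 - r)) • (x0 - r)) = (1 / nsq (x0 - r)) ^ 2 * nsq (x0 - r) := by
        generalize 1 / nsq (x0 - r) = c
        simp only [nsq3, Pi.smul_apply, smul_eq_mul]
        ring
      rw [this]; field_simp
    have h3 : r + (1 / nsq ((1 / nsq (x0 - r)) • (x0 - r))) • ((1 / nsq (x0 - r)) • (x0 - r))
        = x0 := by
      rw [h2, smul_smul, one_div_one_div, mul_one_div, div_self hp0.ne', one_smul]
      abel
    rw [h3] at h1
    rcases mul_eq_zero.1 h1.symm with h4 | h4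
    · exact (pow_pos hp _).ne' h4
    · exact hx0 h4
  refine (hH F (Fin 3 → ℝ) Q (fun p => (2 : ℝ) • (p - r)) (fun _ => 1) hF0 ?_ ?_ ?_).trans hFdeg
  · intro p hp
    exact smul_ne_zero (by norm_num) (sub_ne_zero.2 (hQ p hp).1)
  · intro p hp x hx
    simp only [smul_dotProduct, smul_eq_mul] at hx
    have hx0 : x ≠ 0 := by
      rintro rfl
      simp at hx
    have hpx := nsq_pos hx0
    rw [hF1' x hx0, (hQ p hp).2 _ ?_, mul_zero]
    have : nsq (r + (1 / nsq x) • x - p) = nsq (r - p) +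
        (1 / nsq x) * ((1 / nsq x) * nsq x - 2 * ((p - r) ⬝ᵥ x)) := by
      generalize 1 / nsq x = c
      simp only [nsq3, dot3, Pi.sub_apply, Pi.add_apply, Pi.smul_apply, smul_eq_mul]
      ring
    rw [this, hx]
    field_simp
    ring
  · intro p hp p' hp' hpp'
    by_contra hc
    push Not at hc
    set w := (2 : ℝ) • (p - r) with hw
    set w' := (2 : ℝ) • (p' - r) with hw'
    have hw0 : w ≠ 0 := smul_ne_zero (by norm_num) (sub_ne_zero.2 (hQ p hp).1)
    have hpw := nsq_pos hw0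
    have hww : w ⬝ᵥ w = nsq w := rfl
    have h1 := hc ((1 / nsq w) • w) (by
      rw [dotProduct_smul, hww, smul_eq_mul]; field_simp)
    rw [dotProduct_smul, smul_eq_mul] at h1
    have h1' : w' ⬝ᵥ w = nsq w := by
      field_simp at h1
      exact h1
    have h2 := hc ((1 / nsq w) • w + (w' - w)) (by
      rw [dotProduct_add, dotProduct_smul, hww, smul_eq_mul, dotProduct_sub, hww,
        dotProduct_comm w w', h1']; field_simp; ring)
    rw [dotProduct_add, dotProduct_smul, smul_eq_mul, h1', dotProduct_sub, h1'] at h2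
    have h3 : w' ⬝ᵥ w' = nsq w := by
      have h4 : 1 / nsq w * nsq w = 1 := by field_simp
      rw [h4] at h2
      linarith
    have h5 : nsq (w' - w) = 0 := by
      have e : nsq (w' - w) = w' ⬝ᵥ w' - 2 * (w' ⬝ᵥ w) + nsq w := by
        simp only [nsq3, dot3, Pi.sub_apply]
        ring
      rw [e, h3, h1']; ring
    have h6 := sub_eq_zero.1 (eq_zero_of_nsq h5.le)
    rw [hw, hw'] at h6
    have h7 : p' - r = p - r := by
      have := congrArg (fun z => (2 : ℝ)⁻¹ • z) h6
      simpa [smul_smul] using this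
    exact hpp' (sub_left_injective h7).symm

theorem st_D2 : Cross_stmt → SubstM_stmt → HypCount_stmt 3 → Zero_stmt := by
  intro hC hS hH L M P f hG hf
  set D := f.totalDegree with hD
  set T := (P ×ˢ P ×ˢ P).filter (fun z => Tri L M z.1 z.2.1 z.2.2 ∧
    MvPolynomial.eval z.2.2 f = 0) with hT
  set Ta := T.filter (fun z => ∃ x, Tri L M z.1 z.2.1 x ∧ MvPolynomial.eval x f ≠ 0) with hTa
  set Tb := T.filter (fun z => ¬ ∃ x, Tri L M z.1 z.2.1 x ∧ MvPolynomial.eval x f ≠ 0) with hTb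
  set Tb1 := Tb.filter (fun z => ∃ x, nsq (x - z.1) = nsq (z.2.2 - z.1) ∧
    MvPolynomial.eval x f ≠ 0) with hTb1
  set Tb2 := Tb.filter (fun z => ¬ ∃ x, nsq (x - z.1) = nsq (z.2.2 - z.1) ∧
    MvPolynomial.eval x f ≠ 0) with hTb2
  have s1 : Ta.card + Tb.card = T.card := Finset.card_filter_add_card_filter_not _
  have s2 : Tb1.card + Tb2.card = Tb.card := Finset.card_filter_add_card_filter_not _
  have hPP : (P ×ˢ P).card = P.card ^ 2 := by rw [Finset.card_product]; ring
  have bA : Ta.card ≤ (2 * D + 1) * P.card ^ 2 := by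
    rw [← hPP]
    refine Finset.card_le_mul_card_image_of_maps_to (f := fun z => (z.1, z.2.1)) ?_ _ ?_
    · intro z hz
      have h1 := (Finset.mem_filter.1 (Finset.mem_filter.1 hz).1).1
      simp only [Finset.mem_product] at h1 ⊢
      exact ⟨h1.1, h1.2.1⟩
    · rintro ⟨p, q⟩ -
      set Z := Ta.filter (fun z => (z.1, z.2.1) = (p, q)) with hZ
      by_cases hZe : Z = ∅
      · rw [hZe]; simp
      obtain ⟨z0, hz0⟩ := Finset.nonempty_iff_ne_empty.2 hZe
      have hinj : Set.InjOn (fun z : (Fin 3 → ℝ) × (Fin 3 → ℝ) × (Fin 3 → ℝ) => z.2.2) Z := by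
        intro z hz z' hz' h
        have h1 := (Finset.mem_filter.1 hz).2
        have h2 := (Finset.mem_filter.1 hz').2
        simp only [Prod.mk.injEq] at h1 h2
        apply Prod.ext (by rw [h1.1, h2.1])
        exact Prod.ext (by rw [h1.2, h2.2]) h
      rw [← Finset.card_image_of_injOn hinj]
      have hc := (hC L M p q 1 (fun _ => f) (Z.image (fun z => z.2.2)) hG ?_).2 ?_ ?_
      · simpa using hc
      · intro r hr
        obtain ⟨z, hz, rfl⟩ := Finset.mem_image.1 hr
        have h1 := (Finset.mem_filter.1 hz).2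
        simp only [Prod.mk.injEq] at h1
        have h2 := (Finset.mem_filter.1 (Finset.mem_filter.1 (Finset.mem_filter.1 hz).1).1).2.1
        rw [h1.1, h1.2] at h2
        exact h2
      · have h1 := (Finset.mem_filter.1 hz0).2
        simp only [Prod.mk.injEq] at h1
        obtain ⟨x, hx1, hx2⟩ := (Finset.mem_filter.1 (Finset.mem_filter.1 hz0).1).2
        rw [h1.1, h1.2] at hx1
        exact ⟨x, hx1, fun _ => hx2⟩
      · intro r hr
        obtain ⟨z, hz, rfl⟩ := Finset.mem_image.1 hr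
        exact ⟨0, (Finset.mem_filter.1 (Finset.mem_filter.1 (Finset.mem_filter.1 hz).1).1).2.2⟩
  have bB1 : Tb1.card ≤ (4 * D) * P.card ^ 2 := by
    rw [← hPP]
    refine Finset.card_le_mul_card_image_of_maps_to (f := fun z => (z.1, z.2.2)) ?_ _ ?_
    · intro z hz
      have h1 := (Finset.mem_filter.1 (Finset.mem_filter.1 (Finset.mem_filter.1 hz).1).1).1
      simp only [Finset.mem_product] at h1 ⊢
      exact ⟨h1.1, h1.2.2⟩
    · rintro ⟨p, r⟩ -
      set Z := Tb1.filter (fun z => (z.1, z.2.2) = (p, r)) with hZ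
      by_cases hZe : Z = ∅
      · rw [hZe]; simp
      obtain ⟨z0, hz0⟩ := Finset.nonempty_iff_ne_empty.2 hZe
      have hinj : Set.InjOn (fun z : (Fin 3 → ℝ) × (Fin 3 → ℝ) × (Fin 3 → ℝ) => z.2.1) Z := by
        intro z hz z' hz' h
        have h1 := (Finset.mem_filter.1 hz).2
        have h2 := (Finset.mem_filter.1 hz').2
        simp only [Prod.mk.injEq] at h1 h2
        apply Prod.ext (by rw [h1.1, h2.1])
        exact Prod.ext h (by rw [h1.2, h2.2])
      rw [← Finset.card_image_of_injOn hinj]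
      obtain ⟨x0, hx1, hx2⟩ := (Finset.mem_filter.1 (Finset.mem_filter.1 hz0).1).2
      have h0 := (Finset.mem_filter.1 hz0).2
      simp only [Prod.mk.injEq] at h0
      rw [h0.1, h0.2] at hx1
      refine b1 hS hH hG f p r x0 hx1 hx2 _ ?_
      intro q hq
      obtain ⟨z, hz, rfl⟩ := Finset.mem_image.1 hq
      have h1 := (Finset.mem_filter.1 hz).2
      simp only [Prod.mk.injEq] at h1
      have hzb := Finset.mem_filter.1 (Finset.mem_filter.1 (Finset.mem_filter.1 hz).1).1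
      have h2 := (Finset.mem_filter.1 hzb.1).2.1
      have h3 := hzb.2
      rw [h1.1, h1.2] at h2
      rw [h1.1] at h3
      push Not at h3
      exact ⟨h2, h3⟩
  have bB2 : Tb2.card ≤ (2 * D) * P.card ^ 2 := by
    rw [← hPP]
    refine Finset.card_le_mul_card_image_of_maps_to (f := fun z => (z.2.1, z.2.2)) ?_ _ ?_
    · intro z hz
      have h1 := (Finset.mem_filter.1 (Finset.mem_filter.1 (Finset.mem_filter.1 hz).1).1).1
      simp only [Finset.mem_product] at h1 ⊢
      exact ⟨h1.2.1, h1.2.2⟩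
    · rintro ⟨q, r⟩ -
      set Z := Tb2.filter (fun z => (z.2.1, z.2.2) = (q, r)) with hZ
      by_cases hZe : Z = ∅
      · rw [hZe]; simp
      obtain ⟨z0, hz0⟩ := Finset.nonempty_iff_ne_empty.2 hZe
      have hinj : Set.InjOn (fun z : (Fin 3 → ℝ) × (Fin 3 → ℝ) × (Fin 3 → ℝ) => z.1) Z := by
        intro z hz z' hz' h
        have h1 := (Finset.mem_filter.1 hz).2
        have h2 := (Finset.mem_filter.1 hz').2
        simp only [Prod.mk.injEq] at h1 h2
        apply Prod.ext h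
        exact Prod.ext (by rw [h1.1, h2.1]) (by rw [h1.2, h2.2])
      rw [← Finset.card_image_of_injOn hinj]
      have hfr : MvPolynomial.eval r f = 0 := by
        have h1 := (Finset.mem_filter.1 (Finset.mem_filter.1 (Finset.mem_filter.1
          (Finset.mem_filter.1 hz0).1).1).1).2.2
        have h0 := (Finset.mem_filter.1 hz0).2
        simp only [Prod.mk.injEq] at h0
        rw [h0.2] at h1
        exact h1
      refine b2 hS hH f hf r hfr _ ?_
      intro p hp
      obtain ⟨z, hz, rfl⟩ := Finset.mem_image.1 hp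
      have h1 := (Finset.mem_filter.1 hz).2
      simp only [Prod.mk.injEq] at h1
      have hz2 := Finset.mem_filter.1 (Finset.mem_filter.1 hz).1
      have hzb := Finset.mem_filter.1 hz2.1
      have h2 := (Finset.mem_filter.1 hzb.1).2.1
      have h3 := hz2.2
      rw [h1.2] at h2 h3
      push Not at h3
      refine ⟨?_, h3⟩
      rintro he
      have h4 := h2.2.1
      rw [he, sub_self] at h4
      have h5 : z.2.1 - r ≠ 0 := by
        intro h
        apply h2.1
        rw [he]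
        exact (sub_eq_zero.1 h).symm
      have h6 := nsq_pos h5
      have h7 : nsq (0 : Fin 3 → ℝ) = 0 := by simp [nsq]
      rw [h7] at h4
      have h8 := mul_pos (good_L hG) h6
      linarith
  have : T.card ≤ (2 * D + 1) * P.card ^ 2 + ((4 * D) * P.card ^ 2 + (2 * D) * P.card ^ 2) := by
    omega
  refine this.trans ?_
  nlinarith [Nat.zero_le (P.card ^ 2), Nat.zero_le (D * P.card ^ 2)]

end

end Pool.Agent.Helper34.Sim
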